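import Pool.Agent.N132.CK.QMain

/-!
# A law for Chow-Kunneth decompositions: growth modulo algebraic equivalence

Let `X` be any smooth projective variety over any field, `W` any Weil cohomology theory with
coefficient field `K` such that hard Lefschetz holds for the powers of `X`, `A` a theory of cycles
with coefficients in `K` (for example `CH ⊗ K`), and `A'` a quotient of `A` by an adequate
equivalence relation all whose classes are smash nilpotent, for example the cycles modulo algebraic
equivalence. Then either `dim A'(X^n) / rank A'(X^n)/num` tends to infinity, or

* every power of `X` has a self-dual Chow-Kunneth decomposition (with projectors in `A`), and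
* any two Chow-Kunneth decompositions of a power of `X` are conjugate by an invertible
  self-correspondence which acts as the identity on the cohomology.

It is not assumed that the Kunneth projectors or the sum of the even ones are algebraic, nor that
homological and numerical equivalence agree.
-/

set_option autoImplicit false

open scoped ENNReal
open Filter Topology
open Pool.Agent.H914 Pool.Agent.H914.VarClass Pool.Agent.H914.VarClass.Obj
open Pool.Agent.Y133.Half Pool.Agent.N132.IXS Pool.Agent.N132.CKQ

universe u v w w'

namespace Pool.Agent.Results.MP_638e8a_ag.AlgebraicEquivalenceLaw

/-- **The Chow-Kunneth law.** -/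
theorem result {k : Type u} [Field k] {𝒱 : VarClass k} {ops : CycleOps 𝒱}
    {W : WeilCohomology.{u, v} ops} (C : CycleTheory.{u, v, w} W) (C' : CycleTheory.{u, v, w'} W)
    (q : SmashQuotient C C') (X : 𝒱.Obj) (hL : ∀ n, HardLefschetz C (pw X n)) :
    Tendsto (fun n => C'.ratio (pw X n)) atTop (𝓝 ⊤) ∨ ∀ n, (selfCorr C (pw X n)).HasCK :=
  ckq_final C C' q X hL

end Pool.Agent.Results.MP_638e8a_ag.AlgebraicEquivalenceLaw
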