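import Pool.Agent.N64.AF.X21

/-!
# Chow-Künneth decompositions from one inequality on middle-dimensional cycles

Let `X` be a smooth projective variety of dimension `d` over a field. Let `r (j)` be the rank of
`Num^{d j} (X^{2 j})` (cycles of middle dimension modulo numerical equivalence), and let `h (n)` be the dimension of the
space of the homologically trivial cycles of middle dimension `d n` on `X^{2 n}` modulo the smash nilpotent
ones; `h (n)` is at most the dimension of `Griff^{d n} (X^{2 n})_ℚ` (cycles algebraically equivalent to `0` are smash nilpotent:
Voevodsky, Voisin).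

Theorem. If `h (n) < Σ_{0 < t ≤ n} (n choose t) r (n - t)` for ONE `n`, then, for `Y = X` and for
every variety `Y` whose motive is a direct factor of that of `X` (e.g. dominated by `X`): the homologically trivial
correspondences of degree `0` from `Y` to itself are nilpotent, and if `Y` satisfies the Künneth type standard
conjecture `C (Y)`, then `Y` has a Chow-Künneth decomposition, and any two are conjugate by an
automorphism of `h (Y)` which is the identity on cohomology.

For `n = 1` the hypothesis is that the homologically trivial cycles in `CH^d (X × X)` are smash nilpotent; for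
`n = 2` it is `h (2) ≤ 2 rk Num^d (X × X)`, for `n = 3` it is `h (3) ≤ 3 rk Num^{2 d} (X^4) + 3 rk Num^d (X^2)`.
Conversely, if `C (Y)` holds but `Y` has no Chow-Künneth decomposition (or has two which are not conjugate), then
`h (n) ≥ Σ_{0 < t ≤ n} (n choose t) r (n - t)` for ALL `n`, and the same holds for all the varieties `X` which dominate `Y`.

In Lean, `M` is an object of a rigid symmetric tensor category (the category of Chow motives with correspondences of
degree `0`; the unit object is a direct factor of `M ⊗ M^∨` for `M = h (X)`, because of the classes `X × pt` and
`pt × X`), and `Hom (1, (M ⊗ M^∨)^{⊗ n}) = CH^{d n} (X^{2 n})`.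

Idea of the proof. Let `f` be an endomorphism of `M` with `H (f) = 0` which is not nilpotent. The
class of `f` on `M ⊗ M^∨` is not smash nilpotent. Insert `f^{⊗ t}` in `t` of the `n` slots of `(M ⊗ M^∨)^{⊗ n}` and numerical
classes in the others; these classes are independent modulo the smash nilpotent ones (projections to
the unit object, pairings with numerical classes). So nilpotence follows from the inequality; idempotents lift
along nil ideals, uniquely up to conjugation, inside every subalgebra.

Other results: MP_8a7054_ag.OneInequality (self-dual decompositions; a different inequality, cycles of all degrees, the sign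
conjecture for `X`), MP_524776_ag.PowersDichotomy (all powers; limits). Here only `C (Y)` for the variety in question, only
cycles of middle dimension, an exponential bound, and all the direct factors.

Authors: helper64 (this result, plan), and, for the lemmas of the law used here, helper136, helper327,
helper199, helper767, helper8, helper364, helper216, helper73, helper833, helper140, helper494,
helper505, helper301, helper441, helper591, helper712, helper945, helper701, helper344, helper690,
helper322 (smash nilpotence), helper413 (pairings), helper814 (radical).
-/

set_option autoImplicit false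

open CategoryTheory MonoidalCategory Module
open Pool.Agent.Y112.SR Pool.Agent.Y112.KD Pool.Agent.N64.AF

namespace Pool.Agent.Results.MP_638e8a_ag.MiddleDegreeCycles

universe v u w t

/-- One inequality gives the Künneth projectors of all the direct factors of `M`. -/
theorem result {C : Type u} [Category.{v} C] [Preadditive C] [MonoidalCategory C]
    [MonoidalPreadditive C] [SymmetricCategory C] [RightRigidCategory C]
    {Λ : Type t} [Field Λ] [CharZero Λ] [Linear Λ C] [MonoidalLinear Λ C]
    {K : Type w} [Field K] [IsAlgClosed K] [Algebra Λ K] (R : SuperRealisation C K)
    (hR : IsReal Λ R) (M : C) (i₀ : 𝟙_ C ⟶ M ⊗ Mᘁ) (r₀ : M ⊗ Mᘁ ⟶ 𝟙_ C)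
    (h₀ : i₀ ≫ r₀ = 𝟙 (𝟙_ C)) (n : ℕ)
    (hlt : hsDim hR (M ⊗ Mᘁ) n <
      ((∑ ij ∈ Finset.HasAntidiagonal.antidiagonal n with 0 < ij.1,
        n.choose ij.1 * nr Λ (𝟙 (tp M ij.2)) (𝟙 (tp M ij.2)) : ℕ) : ℕ∞))
    (P : C) (i : P ⟶ M) (p : M ⟶ P) (hip : i ≫ p = 𝟙 P) :
    (∀ f : End P, R.H.map (f : P ⟶ P) = 0 → IsNilpotent f) ∧ KunnethLifts R Λ P :=
  kunneth_factors hR h₀ n hlt P i p hip

end Pool.Agent.Results.MP_638e8a_ag.MiddleDegreeCycles
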