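import Pool.Agent.N174.OV.Fac

/-!
# Chow-Kunneth decompositions of derived equivalent varieties

Let `F : D(Y) → D(X)` be a fully faithful functor (for instance an equivalence) of the derived
categories of smooth projective varieties, and let `L`, `M` be line bundles on `X`, `Y` with
`F(- ⊗ M) = F(-) ⊗ L`. For example `F` is an equivalence and `L`, `M` are the canonical bundles,
or `X` and `Y` are varieties over `B`, `F` is linear over `B`, and `L`, `M` are the pull-backs of an
ample line bundle on `B`; then `M` satisfies hard Lefschetz if `Y → B` is semismall. The classes of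
the kernels of `F` and its adjoint are correspondences `w`, `v` of all degrees between `X` and `Y`
with `v ∘ w = 1`, compatible with the products `LX`, `LY` with the classes of `L` and `M`.

Suppose that `X` has a Chow-Kunneth decomposition such that motivic hard Lefschetz holds for `LX`.
Then `Y` has one for `LY`, even a self-dual one. For all such decompositions the correspondences
`v` and `w` are triangular: they do not lower the degree, counted from the middle, and `h^j(Y)` is
by the diagonal parts of `v` and `w` a direct factor of `h^i(X)`, where `i - dim X = j - dim Y`, up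
to correspondences of all degrees. No finite-dimensionality and no nilpotence is assumed.
-/

open Pool.Agent.H914 Pool.Agent.H914.VarClass Pool.Agent.H914.VarClass.Obj Pool.Agent.W492.BB
  Pool.Agent.W550.Corr Pool.Agent.TH133 Pool.Agent.Y107 Pool.Agent.N174.OV

universe u v w

namespace Pool.Agent.Results.MP_638e8a_ag.MixedFactors

/-- **Chow-Kunneth decompositions with motivic hard Lefschetz are inherited by factors of all
degrees.** -/
theorem result {k : Type u} [Field k] {𝒱 : VarClass k} {C : TheoryData.{u, v, 0} 𝒱 ℚ}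
    [IsChowProj C] {K : Type w} [Field K] {H : WeilTheoryData.{u, v, w} C K} [IsWeilProj H]
    {X Y : 𝒱.Obj} {LX : C.A (X.prod X)} {LY : C.A (Y.prod Y)} {v : C.A (X.prod Y)}
    {w : C.A (Y.prod X)} (h : IsMixedFactor C LX LY v w) (hs : tp C LY = LY)
    (hY : HardLefschetzCor H Y LY) :
    ((∃ z : C.A (X.prod X), brk C LX (brk C LX z) = LX) → ∃ ρ, SelfDualLefschetz H LY ρ) ∧
    ∀ π, IsCK H X π → MotivicLefschetz C LX π → (∃ ρ, SelfDualLefschetz H LY ρ) ∧
      ∀ ρ, IsCK H Y ρ → MotivicLefschetz C LY ρ →
        (∀ i j, j + X.dim < i + Y.dim → C.comp (C.comp (π i) v) (ρ j) = 0) ∧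
        (∀ i j, i + Y.dim < j + X.dim → C.comp (C.comp (ρ j) w) (π i) = 0) ∧
        ∀ i j, i + Y.dim = j + X.dim →
          C.comp (C.comp (C.comp (ρ j) w) (π i)) (C.comp (C.comp (π i) v) (ρ j)) = ρ j ∧
          (C.comp v w = dg C X →
            C.comp (C.comp (C.comp (π i) v) (ρ j)) (C.comp (C.comp (ρ j) w) (π i)) = π i) := by
  have key : (∃ z : C.A (X.prod X), brk C LX (brk C LX z) = LX) →
      ∃ ρ, SelfDualLefschetz H LY ρ := by
    intro hz
    obtain ⟨ρ, h1, h2, h3⟩ := exists_selfDual_of_inSquare (H := H) h.degY hs hY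
      (inSquare_of_factor h hz)
    exact ⟨ρ, h1, h2, h3⟩
  refine ⟨key, fun π hπ hL => ⟨key ?_, fun ρ hρ hM => ⟨fun i j hij => ?_, fun i j hij => ?_,
    fun i j hij => ⟨pieces hπ hρ hL hM h hij, fun hvw => ?_⟩⟩⟩⟩
  · obtain ⟨z, _, hz⟩ := inSquare_of_powersRegular (C := C) (X := X) h.degX
      (powersRegular_of_motivicLefschetz h.degX hπ hL)
    exact ⟨z, hz⟩
  · exact triangular hπ hρ hL hM h.comm (by omega)
  · exact triangular hρ hπ hM hL h.comm' (by omega)
  · exact pieces hρ hπ hM hL ⟨h.degY, h.degX, h.comm', h.comm, hvw⟩ hij.symm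

end Pool.Agent.Results.MP_638e8a_ag.MixedFactors
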